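import Mathlib

set_option autoImplicit false
set_option linter.unusedSectionVars false

open Finset
open scoped Classical

namespace Pool.Agent.Q260.CD

/-! ## Counting functions with one or many coordinates in small sets -/

section coord

variable {ι G : Type} [Fintype ι] [DecidableEq ι] [Fintype G] [Nonempty G]

theorem one_coord (X : Finset (ι → G)) (w : ι) (P : (ι → G) → Finset G) (r : ℝ)
    (hX : ∀ ω g, ω ∈ X → Function.update ω w g ∈ X)
    (hP : ∀ ω g, P (Function.update ω w g) = P ω)
    (hq : ∀ ω, ((P ω).card : ℝ) ≤ r * Fintype.card G) :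
    ((X.filter fun ω => ω w ∈ P ω).card : ℝ) ≤ r * X.card := by
  have h1 : ((X.filter fun ω => ω w ∈ P ω) ×ˢ (univ : Finset G)).card ≤
      (X.sigma P).card := by
    apply Finset.card_le_card_of_injOn (fun x => ⟨Function.update x.1 w x.2, x.1 w⟩)
    · rintro ⟨ω, g⟩ h
      simp only [coe_product, Set.mem_prod, mem_coe, mem_filter, coe_univ, Set.mem_univ,
        and_true] at h
      simp only [coe_sigma, Set.mem_sigma_iff, mem_coe]
      exact ⟨hX _ _ h.1, by rw [hP]; exact h.2⟩
    · rintro ⟨ω, g⟩ _ ⟨ω', g'⟩ _ h
      simp only [Sigma.mk.injEq, heq_eq_eq] at h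
      obtain ⟨h1, h2⟩ := h
      have e1 : g = g' := by
        have := congrFun h1 w
        simpa using this
      have e2 : ω = ω' := by
        funext i
        by_cases hi : i = w
        · rw [hi]; exact h2
        · have := congrFun h1 i
          simpa [Function.update_of_ne hi] using this
      rw [e1, e2]
  rw [card_product, card_sigma, card_univ] at h1
  have h2 : ((∑ ω ∈ X, (P ω).card : ℕ) : ℝ) ≤ X.card * (r * Fintype.card G) := by
    push_cast
    calc (∑ ω ∈ X, ((P ω).card : ℝ)) ≤ ∑ ω ∈ X, (r * Fintype.card G) :=
          Finset.sum_le_sum fun ω _ => hq ω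
      _ = X.card * (r * Fintype.card G) := by rw [sum_const, nsmul_eq_mul]
  have h3 : (((X.filter fun ω => ω w ∈ P ω).card * Fintype.card G : ℕ) : ℝ) ≤
      X.card * (r * Fintype.card G) := le_trans (by exact_mod_cast h1) h2
  have hG : (0 : ℝ) < Fintype.card G := by exact_mod_cast Fintype.card_pos
  push_cast at h3
  have h4 : ((X.filter fun ω => ω w ∈ P ω).card : ℝ) * Fintype.card G ≤
      (r * X.card) * Fintype.card G := by linarith
  exact le_of_mul_le_mul_right h4 hG

theorem many_coord (W : Finset ι) (P : (ι → G) → Finset G) (r : ℝ) (hr : 0 ≤ r)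
    (hP : ∀ w ∈ W, ∀ ω g, P (Function.update ω w g) = P ω)
    (hq : ∀ ω, ((P ω).card : ℝ) ≤ r * Fintype.card G) :
    ((univ.filter fun ω : ι → G => ∀ w ∈ W, ω w ∈ P ω).card : ℝ) ≤
      r ^ W.card * Fintype.card (ι → G) := by
  induction W using Finset.induction_on with
  | empty => simp
  | insert w W hw ih =>
    have ih' := ih fun x hx => hP x (mem_insert_of_mem hx)
    have e : (univ.filter fun ω : ι → G => ∀ x ∈ insert w W, ω x ∈ P ω) =
        (univ.filter fun ω : ι → G => ∀ x ∈ W, ω x ∈ P ω).filter fun ω => ω w ∈ P ω := by
      ext ω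
      simp only [mem_filter, mem_univ, true_and, mem_insert, forall_eq_or_imp]
      exact and_comm
    rw [e, card_insert_of_notMem hw]
    refine le_trans (one_coord _ w P r ?_ (hP w (mem_insert_self _ _)) hq) ?_
    · intro ω g hω
      simp only [mem_filter, mem_univ, true_and] at hω ⊢
      intro x hx
      have hxw : x ≠ w := fun h => hw (h ▸ hx)
      rw [Function.update_of_ne hxw, hP w (mem_insert_self _ _)]
      exact hω x hx
    · rw [pow_succ]
      nlinarith [ih']

end coord

/-! ## Counting in a finite group acting on a set -/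

section act

variable {A V : Type} [Group A] [Fintype A] [MulAction A V]

theorem card_shift (p : V → Prop) (x : V) (c : A) :
    (univ.filter fun g : A => p (g • c • x)).card = (univ.filter fun g : A => p (g • x)).card := by
  apply Finset.card_nbij' (fun g => g * c) (fun g => g * c⁻¹)
  · intro g hg
    simp only [coe_filter, mem_univ, true_and, Set.mem_ofPred_eq] at hg ⊢
    rwa [mul_smul]
  · intro g hg
    simp only [coe_filter, mem_univ, true_and, Set.mem_ofPred_eq] at hg ⊢
    rwa [mul_smul, inv_smul_smul]
  · intro g _
    simp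
  · intro g _
    simp

/-- the orbit of a point -/
noncomputable def orb (A : Type) {V : Type} [Group A] [Fintype A] [MulAction A V] (x : V) :
    Finset V := univ.image fun g : A => g • x

theorem hit_le (x v : V) :
    (univ.filter fun g : A => g • x = v).card * (orb A x).card ≤ Fintype.card A := by
  have h1 : ∀ u ∈ orb A x, (univ.filter fun g : A => g • x = v).card ≤
      (univ.filter fun g : A => g • x = u).card := by
    intro u hu
    obtain ⟨g₁, -, rfl⟩ := mem_image.1 hu
    rcases (univ.filter fun g : A => g • x = v).eq_empty_or_nonempty with h | ⟨g₀, h⟩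
    · rw [h]; simp
    · have h0 : g₀ • x = v := (mem_filter.1 h).2
      apply Finset.card_le_card_of_injOn (fun g => g₁ * g₀⁻¹ * g)
      · intro g hg
        simp only [coe_filter, mem_univ, true_and, Set.mem_ofPred_eq] at hg ⊢
        rw [mul_smul, mul_smul, hg, ← h0, inv_smul_smul]
      · intro g _ g' _ h
        exact mul_left_cancel h
  have h2 : (univ : Finset A).card = ∑ u ∈ orb A x, (univ.filter fun g : A => g • x = u).card :=
    Finset.card_eq_sum_card_fiberwise fun g _ => mem_coe.2 (mem_image_of_mem _ (mem_univ g))
  rw [card_univ] at h2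
  rw [h2, mul_comm]
  calc (orb A x).card * (univ.filter fun g : A => g • x = v).card =
        ∑ _u ∈ orb A x, (univ.filter fun g : A => g • x = v).card := by
          rw [sum_const, smul_eq_mul]
    _ ≤ _ := Finset.sum_le_sum h1

/-- the number of group elements `c` such that `g` moves `c x` -/
noncomputable def moved (g : A) (x : V) : ℕ := (univ.filter fun c : A => g • c • x ≠ c • x).card

theorem sum_moved {d : ℕ} (b : Fin d → V) (hb : ∀ g : A, (∀ i, g • b i = b i) → g = 1) (g : A)
    (hg : g ≠ 1) : Fintype.card A ≤ ∑ i, moved g (b i) := by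
  have h : (univ : Finset A) ⊆
      univ.biUnion fun i => univ.filter fun c : A => g • c • b i ≠ c • b i := by
    intro c _
    simp only [mem_biUnion, mem_univ, true_and, mem_filter]
    by_contra hcon
    push Not at hcon
    have : c⁻¹ * g * c = 1 := by
      apply hb
      intro i
      rw [mul_smul, mul_smul, hcon i, inv_smul_smul]
    apply hg
    have h2 : g = c * (c⁻¹ * g * c) * c⁻¹ := by group
    rw [h2, this]
    group
  have h2 := card_le_card h
  rw [card_univ] at h2
  exact le_trans h2 card_biUnion_le

theorem moved_mul_le (g h : A) (x : V) : moved (g⁻¹ * h) x ≤ moved g x + moved h x := by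
  refine le_trans (card_le_card ?_) (card_union_le _ _)
  intro c hc
  simp only [mem_filter, mem_univ, true_and, mem_union] at hc ⊢
  by_contra hcon
  push Not at hcon
  apply hc
  rw [mul_smul, hcon.2, inv_smul_eq_iff, hcon.1]

/-- the elements moving few points of the orbits of `b i`, `i ∈ Lg` -/
noncomputable def few {d : ℕ} (b : Fin d → V) (Lg : Finset (Fin d)) : Finset A :=
  univ.filter fun g => ∀ i ∈ Lg, 2 * d * moved g (b i) < Fintype.card A

theorem card_few {d : ℕ} (hd : 0 < d) (b : Fin d → V)
    (hb : ∀ g : A, (∀ i, g • b i = b i) → g = 1) (Lg : Finset (Fin d)) (U : Finset V)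
    (hU : ∀ i ∉ Lg, ∀ g : A, g • b i ∈ U) (hUU : ∀ g : A, ∀ u ∈ U, g • u ∈ U) :
    (few (A := A) b Lg).card ≤ U.card ^ U.card := by
  have h : (few (A := A) b Lg).card ≤ (univ : Finset ({u // u ∈ U} → {u // u ∈ U})).card := by
    apply Finset.card_le_card_of_injOn
      (fun g => fun u : {u // u ∈ U} => (⟨g • u.1, hUU g u.1 u.2⟩ : {u // u ∈ U}))
    · intro g _
      simp
    · intro g hg h hh e
      by_contra hne
      have hne' : g⁻¹ * h ≠ 1 := fun e' => hne (by rw [inv_mul_eq_one] at e'; exact e')
      have h1 := sum_moved b hb _ hne'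
      have hU' : ∀ u ∈ U, g • u = h • u := fun u hu => by
        have := congrFun e ⟨u, hu⟩
        simpa using this
      have h2 : ∀ i, d * moved (g⁻¹ * h) (b i) < Fintype.card A := by
        intro i
        by_cases hi : i ∈ Lg
        · have a1 := (mem_filter.1 (mem_coe.1 hg)).2 i hi
          have a2 := (mem_filter.1 (mem_coe.1 hh)).2 i hi
          have a3 := moved_mul_le g h (b i)
          have a4 : 2 * (d * moved (g⁻¹ * h) (b i)) < 2 * Fintype.card A := by
            calc 2 * (d * moved (g⁻¹ * h) (b i)) ≤ 2 * (d * (moved g (b i) + moved h (b i))) := by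
                  gcongr
              _ = 2 * d * moved g (b i) + 2 * d * moved h (b i) := by ring
              _ < 2 * Fintype.card A := by omega
          omega
        · have : moved (g⁻¹ * h) (b i) = 0 := by
            rw [moved, card_eq_zero, filter_eq_empty_iff]
            intro c _
            rw [not_not, mul_smul, ← hU' _ (hU i hi c), inv_smul_smul]
          rw [this, mul_zero]
          exact Fintype.card_pos
      have h3 : d * ∑ i, moved (g⁻¹ * h) (b i) < d * Fintype.card A := by
        rw [mul_sum]
        calc ∑ i, d * moved (g⁻¹ * h) (b i) < ∑ _i : Fin d, Fintype.card A := by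
              have : Nonempty (Fin d) := ⟨⟨0, hd⟩⟩
              exact Finset.sum_lt_sum_of_nonempty univ_nonempty fun i _ => h2 i
          _ = d * Fintype.card A := by simp
      have h4 := Nat.lt_of_mul_lt_mul_left h3
      omega
  simpa using h

end act

end Pool.Agent.Q260.CD
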