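import Pool.Agent.Q260.CD.Count

set_option autoImplicit false
set_option linter.unusedSectionVars false

open Finset
open scoped Classical

namespace Pool.Agent.Q260.CD

variable {A V : Type} [Group A] [Fintype A] [MulAction A V]

/-- the group element which sends `b` to `f` (or `1`) -/
noncomputable def lift {d : ℕ} (b f : Fin d → V) : A :=
  if h : ∃ g : A, ∀ i, g • b i = f i then h.choose else 1

theorem lift_eq {d : ℕ} {b : Fin d → V} (hb : ∀ g : A, (∀ i, g • b i = b i) → g = 1) (g : A)
    (f : Fin d → V) (h : ∀ i, g • b i = f i) : lift b f = g := by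
  have hx : ∃ g : A, ∀ i, g • b i = f i := ⟨g, h⟩
  rw [lift, dif_pos hx]
  have h1 := hx.choose_spec
  have h2 : g⁻¹ * hx.choose = 1 := hb _ fun i => by rw [mul_smul, h1, ← h i, inv_smul_smul]
  rw [inv_mul_eq_one] at h2
  exact h2.symm

/-- the points: fixed ones and random ones -/
def pt {d : ℕ} (R : Finset V) (b : Fin d → V) (k : ℕ) (ω : Fin d × Fin k → A) :
    {v // v ∈ R} ⊕ (Fin d × Fin k) → V :=
  Sum.elim (fun v => v.1) (fun x => ω x • b x.1)

theorem pt_update {d : ℕ} (R : Finset V) (b : Fin d → V) (k : ℕ) (ω : Fin d × Fin k → A)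
    (x : Fin d × Fin k) (g : A) (s : {v // v ∈ R} ⊕ (Fin d × Fin k)) (hs : s ≠ Sum.inr x) :
    pt R b k (Function.update ω x g) s = pt R b k ω s := by
  rcases s with s | y
  · rfl
  · have : y ≠ x := fun h => hs (h ▸ rfl)
    simp [pt, Function.update_of_ne this]

/-- the candidate element of a code -/
noncomputable def cand {d : ℕ} (R : Finset V) (b : Fin d → V) (k : ℕ)
    (c : Fin d → {v // v ∈ R} ⊕ (Fin d × Fin k)) (ω : Fin d × Fin k → A) : A :=
  lift b (fun j => pt R b k ω (c j))

theorem cand_update {d : ℕ} (R : Finset V) (b : Fin d → V) (k : ℕ)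
    (c : Fin d → {v // v ∈ R} ⊕ (Fin d × Fin k)) (ω : Fin d × Fin k → A)
    (x : Fin d × Fin k) (g : A) (hc : ∀ j, c j ≠ Sum.inr x) :
    cand R b k c (Function.update ω x g) = cand R b k c ω := by
  unfold cand
  congr 1
  funext j
  exact pt_update R b k ω x g (c j) (hc j)

theorem boundA {d : ℕ} (hd : 0 < d) (R : Finset V) (b : Fin d → V) (k : ℕ)
    (c : Fin d → {v // v ∈ R} ⊕ (Fin d × Fin k)) (i : Fin d) :
    ((univ.filter fun ω : Fin d × Fin k → A =>
      Fintype.card A ≤ 2 * d * moved (cand R b k c ω) (b i) ∧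
      ∀ a : Fin k, (∀ j, c j ≠ Sum.inr (i, a)) →
        cand R b k c ω • ω (i, a) • b i = ω (i, a) • b i).card : ℝ) ≤
      (1 - 1 / (2 * d)) ^ (k - d) * Fintype.card (Fin d × Fin k → A) := by
  have hd' : (1 : ℝ) ≤ d := by exact_mod_cast hd
  have hr0 : (0 : ℝ) ≤ 1 - 1 / (2 * d) := by
    rw [sub_nonneg, div_le_one (by linarith)]
    linarith
  have hr1 : (1 : ℝ) - 1 / (2 * d) ≤ 1 := by
    have : (0 : ℝ) ≤ 1 / (2 * d) := by positivity
    linarith
  set W : Finset (Fin d × Fin k) := univ.filter fun x => x.1 = i ∧ ∀ j, c j ≠ Sum.inr x with hW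
  set P : (Fin d × Fin k → A) → Finset A := fun ω =>
    if Fintype.card A ≤ 2 * d * moved (cand R b k c ω) (b i) then
      univ.filter fun g => cand R b k c ω • g • b i = g • b i else ∅ with hPdef
  have h1 := many_coord (G := A) W P (1 - 1 / (2 * d)) hr0 (by
      intro w hw ω g
      have hw' := (mem_filter.1 hw).2.2
      simp only [hPdef, cand_update R b k c ω w g hw']) (by
      intro ω
      simp only [hPdef]
      split_ifs with h
      · have e : (univ.filter fun g : A => cand R b k c ω • g • b i = g • b i).card +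
            moved (cand R b k c ω) (b i) = Fintype.card A := by
          rw [moved, ← card_univ]
          exact Finset.card_filter_add_card_filter_not _
        have e' : ((univ.filter fun g : A => cand R b k c ω • g • b i = g • b i).card : ℝ) +
            moved (cand R b k c ω) (b i) = Fintype.card A := by exact_mod_cast e
        have h' : (Fintype.card A : ℝ) ≤ 2 * d * moved (cand R b k c ω) (b i) := by
          exact_mod_cast h
        have h2 : 1 / (2 * (d : ℝ)) * Fintype.card A ≤ moved (cand R b k c ω) (b i) := by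
          rw [div_mul_eq_mul_div, one_mul, div_le_iff₀ (by linarith)]
          linarith
        linarith
      · simp only [card_empty, Nat.cast_zero]
        positivity)
  have hWc : k - d ≤ W.card := by
    have h2 : (univ.image fun a : Fin k => (i, a)) ⊆
        W ∪ univ.filter fun x : Fin d × Fin k => ∃ j, c j = Sum.inr x := by
      intro x hx
      obtain ⟨a, -, rfl⟩ := mem_image.1 hx
      simp only [hW, mem_union, mem_filter, mem_univ, true_and]
      by_cases h : ∃ j, c j = Sum.inr (i, a)
      · exact Or.inr h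
      · push Not at h
        exact Or.inl h
    have h3 := le_trans (card_le_card h2) (card_union_le _ _)
    have h4 : (univ.image fun a : Fin k => (i, a)).card = k := by
      rw [card_image_of_injective _ (fun a a' h => by simpa using h), card_univ, Fintype.card_fin]
    have h5 : (univ.filter fun x : Fin d × Fin k => ∃ j, c j = Sum.inr x).card ≤ d := by
      calc (univ.filter fun x : Fin d × Fin k => ∃ j, c j = Sum.inr x).card ≤
            (univ.image c).card := by
              apply Finset.card_le_card_of_injOn Sum.inr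
              · intro x hx
                obtain ⟨j, hj⟩ := (mem_filter.1 (mem_coe.1 hx)).2
                exact mem_coe.2 (mem_image.2 ⟨j, mem_univ _, hj⟩)
              · intro x _ y _ h
                exact Sum.inr_injective h
        _ ≤ (univ : Finset (Fin d)).card := card_image_le
        _ = d := by simp
    omega
  refine le_trans ?_ (le_trans h1 ?_)
  · norm_cast
    apply card_le_card
    intro ω hω
    simp only [mem_filter, mem_univ, true_and] at hω ⊢
    intro w hw
    obtain ⟨hw1, hw2⟩ := (mem_filter.1 hw).2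
    simp only [hPdef, if_pos hω.1, mem_filter, mem_univ, true_and]
    obtain ⟨i', a⟩ := w
    simp only at hw1
    subst hw1
    exact hω.2 a hw2
  · exact mul_le_mul_of_nonneg_right (pow_le_pow_of_le_one hr0 hr1 hWc) (Nat.cast_nonneg _)

theorem boundB {d : ℕ} (R : Finset V) (b : Fin d → V) (k : ℕ) (T : ℝ)
    (c : Fin d → {v // v ∈ R} ⊕ (Fin d × Fin k)) (x : Fin d × Fin k)
    (hx : ∀ v, ((univ.filter fun g : A => g • b x.1 = v).card : ℝ) ≤ 1 / T * Fintype.card A)
    (hc : ∀ j, c j ≠ Sum.inr x) (s : {v // v ∈ R} ⊕ (Fin d × Fin k)) (hs : s ≠ Sum.inr x) :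
    ((univ.filter fun ω : Fin d × Fin k → A =>
      cand R b k c ω • ω x • b x.1 = pt R b k ω s).card : ℝ) ≤
      1 / T * Fintype.card (Fin d × Fin k → A) := by
  have h := one_coord (G := A) (univ : Finset (Fin d × Fin k → A)) x
    (fun ω => univ.filter fun g => g • b x.1 = (cand R b k c ω)⁻¹ • pt R b k ω s) (1 / T)
    (fun _ _ _ => mem_univ _) (fun ω g => by
      simp only [cand_update R b k c ω x g hc, pt_update R b k ω x g s hs]) (fun ω => hx _)
  rw [card_univ] at h
  refine le_trans (le_of_eq ?_) h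
  congr 2
  ext ω
  simp only [mem_filter, mem_univ, true_and]
  rw [eq_inv_smul_iff]

theorem boundC {d : ℕ} (b : Fin d → V) (k : ℕ) (T : ℝ) (x : Fin d × Fin k)
    (hx : ∀ v, ((univ.filter fun g : A => g • b x.1 = v).card : ℝ) ≤ 1 / T * Fintype.card A)
    (v : V) :
    ((univ.filter fun ω : Fin d × Fin k → A => ω x • b x.1 = v).card : ℝ) ≤
      1 / T * Fintype.card (Fin d × Fin k → A) := by
  have h := one_coord (G := A) (univ : Finset (Fin d × Fin k → A)) x
    (fun ω => univ.filter fun g => g • b x.1 = v) (1 / T)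
    (fun _ _ _ => mem_univ _) (fun ω g => rfl) (fun ω => hx _)
  rw [card_univ] at h
  refine le_trans (le_of_eq ?_) h
  congr 2
  ext ω
  simp only [mem_filter, mem_univ, true_and]

theorem exists_good {d k : ℕ} (hd : 0 < d) (b : Fin d → V)
    (hb : ∀ g : A, (∀ i, g • b i = b i) → g = 1) (Lg : Finset (Fin d)) (R S₂ Av : Finset V)
    (hRb : ∀ i ∈ Lg, b i ∈ R) (hS₂ : S₂ ⊆ R) (hU : ∀ i ∉ Lg, ∀ g : A, g • b i ∈ R) (T : ℝ)
    (hT : 0 < T)
    (hLg : ∀ i ∈ Lg, ∀ v, ((univ.filter fun g : A => g • b i = v).card : ℝ) ≤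
      1 / T * Fintype.card A)
    (hAv : ∀ i ∈ Lg, b i ∉ Av)
    (hnum : ((R.card : ℝ) + d * k) ^ d * d * (1 - 1 / (2 * d)) ^ (k - d) +
      ((R.card : ℝ) + d * k) ^ d * (d * k) * ((R.card : ℝ) + d * k) * (1 / T) +
      d * k * Av.card * (1 / T) < 1) :
    ∃ Y : Finset V, Y.card ≤ d * k ∧ (∀ v ∈ Lg.image b ∪ Y, v ∉ Av) ∧
      ∀ h : A, (∀ v ∈ Lg.image b ∪ Y ∪ S₂, h • v ∈ Lg.image b ∪ Y ∪ S₂) → h ∈ few b Lg := by
  by_contra hcon
  push Not at hcon
  -- the bad sets
  let Ω := Fin d × Fin k → A
  let J := {v // v ∈ R} ⊕ (Fin d × Fin k)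
  have hJ : Fintype.card J = R.card + d * k := by simp [J]
  set BA : (Fin d → J) × Fin d → Finset Ω := fun y => univ.filter fun ω : Ω =>
      Fintype.card A ≤ 2 * d * moved (cand R b k y.1 ω) (b y.2) ∧
      ∀ a : Fin k, (∀ j, y.1 j ≠ Sum.inr (y.2, a)) →
        cand R b k y.1 ω • ω (y.2, a) • b y.2 = ω (y.2, a) • b y.2 with hBA
  set BB : (Fin d → J) × (Fin d × Fin k) × J → Finset Ω := fun y =>
    if y.2.1.1 ∈ Lg ∧ (∀ j, y.1 j ≠ Sum.inr y.2.1) ∧ y.2.2 ≠ Sum.inr y.2.1 then
      univ.filter fun ω : Ω => cand R b k y.1 ω • ω y.2.1 • b y.2.1.1 = pt R b k ω y.2.2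
    else ∅ with hBB
  set BC : (Fin d × Fin k) × V → Finset Ω := fun y =>
    if y.1.1 ∈ Lg then univ.filter fun ω : Ω => ω y.1 • b y.1.1 = y.2 else ∅ with hBC
  have hall : (univ : Finset Ω) ⊆ (univ.biUnion BA ∪ univ.biUnion BB) ∪
      (univ ×ˢ Av).biUnion BC := by
    intro ω _
    by_contra hω
    rw [mem_union, mem_union, not_or, not_or] at hω
    obtain ⟨⟨hA, hB⟩, hC⟩ := hω
    simp only [mem_biUnion, mem_univ, true_and, not_exists] at hA hB
    have hC' : ∀ x : Fin d × Fin k, x.1 ∈ Lg → ∀ v ∈ Av, ω x • b x.1 ≠ v := by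
      intro x hx v hv e
      apply hC
      rw [mem_biUnion]
      refine ⟨(x, v), by simp [hv], ?_⟩
      simp only [hBC, if_pos hx, mem_filter, mem_univ, true_and]
      exact e
    let Y : Finset V := (univ.filter fun x : Fin d × Fin k => x.1 ∈ Lg).image
      fun x => ω x • b x.1
    have hYc : Y.card ≤ d * k := by
      refine le_trans card_image_le (le_trans (card_le_univ _) ?_)
      simp
    have hYav : ∀ v ∈ Lg.image b ∪ Y, v ∉ Av := by
      intro v hv
      rcases mem_union.1 hv with h | h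
      · obtain ⟨i, hi, rfl⟩ := mem_image.1 h
        exact hAv i hi
      · obtain ⟨x, hx, rfl⟩ := mem_image.1 h
        intro hv'
        exact hC' x (mem_filter.1 hx).2 _ hv' rfl
    obtain ⟨h, hS, hE⟩ := hcon Y hYc hYav
    -- every point of `S` is a point of the list
    have hpt : ∀ v ∈ Lg.image b ∪ Y ∪ S₂, ∃ s : J, pt R b k ω s = v := by
      intro v hv
      rcases mem_union.1 hv with hv | hv
      · rcases mem_union.1 hv with hv | hv
        · obtain ⟨i, hi, rfl⟩ := mem_image.1 hv
          exact ⟨Sum.inl ⟨b i, hRb i hi⟩, rfl⟩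
        · obtain ⟨x, hx, rfl⟩ := mem_image.1 hv
          exact ⟨Sum.inr x, rfl⟩
      · exact ⟨Sum.inl ⟨v, hS₂ hv⟩, rfl⟩
    have hcode : ∀ j : Fin d, ∃ s : J, pt R b k ω s = h • b j := by
      intro j
      by_cases hj : j ∈ Lg
      · exact hpt _ (hS _ (mem_union_left _ (mem_union_left _ (mem_image_of_mem b hj))))
      · exact ⟨Sum.inl ⟨h • b j, hU j hj h⟩, rfl⟩
    choose c hc using hcode
    have hcand : cand R b k c ω = h := lift_eq hb h _ fun i => (hc i).symm
    simp only [few, mem_filter, mem_univ, true_and] at hE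
    push Not at hE
    obtain ⟨i, hi, hE⟩ := hE
    have hA' := hA (c, i)
    simp only [hBA, mem_filter, mem_univ, true_and, hcand, not_and] at hA'
    have hA'' := hA' hE
    push Not at hA''
    obtain ⟨a, ha1, ha2⟩ := hA''
    have hyS : ω (i, a) • b i ∈ Lg.image b ∪ Y ∪ S₂ :=
      mem_union_left _ (mem_union_right _ (mem_image.2
        ⟨(i, a), mem_filter.2 ⟨mem_univ _, hi⟩, rfl⟩))
    obtain ⟨s, hs⟩ := hpt _ (hS _ hyS)
    have hs' : s ≠ Sum.inr (i, a) := by
      rintro rfl
      exact ha2 hs.symm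
    apply hB (c, (i, a), s)
    have hcond : i ∈ Lg ∧ (∀ j, c j ≠ Sum.inr (i, a)) ∧ s ≠ Sum.inr (i, a) := ⟨hi, ha1, hs'⟩
    simp only [hBB, if_pos hcond, mem_filter, mem_univ, true_and, hcand]
    exact hs.symm
  have hcard := card_le_card hall
  have hcard2 : Fintype.card Ω ≤ (∑ y, (BA y).card + ∑ y, (BB y).card) +
      ∑ y ∈ univ ×ˢ Av, (BC y).card := by
    rw [← card_univ]
    refine le_trans hcard (le_trans (card_union_le _ _) ?_)
    gcongr
    · refine le_trans (card_union_le _ _) ?_
      gcongr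
      · exact card_biUnion_le
      · exact card_biUnion_le
    · exact card_biUnion_le
  have hcard3 : (Fintype.card Ω : ℝ) ≤ (∑ y, ((BA y).card : ℝ) + ∑ y, ((BB y).card : ℝ)) +
      ∑ y ∈ univ ×ˢ Av, ((BC y).card : ℝ) := by exact_mod_cast hcard2
  have hΩ : (0 : ℝ) < Fintype.card Ω := by exact_mod_cast Fintype.card_pos
  have e1 : ∑ y, ((BA y).card : ℝ) ≤
      ((R.card : ℝ) + d * k) ^ d * d * ((1 - 1 / (2 * d)) ^ (k - d) * Fintype.card Ω) := by
    calc ∑ y, ((BA y).card : ℝ) ≤ ∑ _y : (Fin d → J) × Fin d,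
          ((1 - 1 / (2 * d)) ^ (k - d) * Fintype.card Ω : ℝ) :=
          Finset.sum_le_sum fun y _ => boundA hd R b k y.1 y.2
      _ = _ := by
          rw [sum_const, nsmul_eq_mul, card_univ, Fintype.card_prod, Fintype.card_fun, hJ,
            Fintype.card_fin]
          push_cast
          ring
  have e2 : ∑ y, ((BB y).card : ℝ) ≤
      ((R.card : ℝ) + d * k) ^ d * (d * k) * ((R.card : ℝ) + d * k) *
        (1 / T * Fintype.card Ω) := by
    calc ∑ y, ((BB y).card : ℝ) ≤ ∑ _y : (Fin d → J) × (Fin d × Fin k) × J,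
          (1 / T * Fintype.card Ω : ℝ) := by
          apply Finset.sum_le_sum
          intro y _
          simp only [hBB]
          split_ifs with h
          · exact boundB R b k T y.1 y.2.1 (hLg _ h.1) h.2.1 y.2.2 h.2.2
          · simp only [card_empty, Nat.cast_zero]
            positivity
      _ = _ := by
          rw [sum_const, nsmul_eq_mul, card_univ, Fintype.card_prod, Fintype.card_fun,
            Fintype.card_prod, Fintype.card_prod, hJ, Fintype.card_fin, Fintype.card_fin]
          push_cast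
          ring
  have e3 : ∑ y ∈ univ ×ˢ Av, ((BC y).card : ℝ) ≤ d * k * Av.card * (1 / T * Fintype.card Ω) := by
    calc ∑ y ∈ univ ×ˢ Av, ((BC y).card : ℝ) ≤ ∑ _y ∈ (univ : Finset (Fin d × Fin k)) ×ˢ Av,
          (1 / T * Fintype.card Ω : ℝ) := by
          apply Finset.sum_le_sum
          intro y _
          simp only [hBC]
          split_ifs with h
          · exact boundC b k T y.1 (hLg _ h) y.2
          · simp only [card_empty, Nat.cast_zero]
            positivity
      _ = _ := by
          rw [sum_const, nsmul_eq_mul, card_product, card_univ, Fintype.card_prod,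
            Fintype.card_fin, Fintype.card_fin]
          push_cast
          ring
  have e4 := mul_lt_mul_of_pos_right hnum hΩ
  nlinarith [e1, e2, e3, e4, hcard3]

end Pool.Agent.Q260.CD
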