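import Pool.Agent.Q260.CD.Good

set_option autoImplicit false
set_option linter.unusedSectionVars false

open Finset
open scoped Classical

namespace Pool.Agent.Q260.CD

/-! ## The numbers -/

theorem numeric (d : ℕ) (hd : 0 < d) (r₀ e₀ : ℕ) : ∃ k T : ℕ, 0 < T ∧
    ∀ r e : ℕ, r ≤ r₀ → e ≤ e₀ →
      ((r : ℝ) + d * k) ^ d * d * (1 - 1 / (2 * d)) ^ (k - d) +
        ((r : ℝ) + d * k) ^ d * (d * k) * ((r : ℝ) + d * k) * (1 / (T : ℝ)) +
        d * k * e * (1 / (T : ℝ)) < 1 ∧ (d : ℝ) * e * (1 / T) < 1 := by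
  have hd' : (1 : ℝ) ≤ d := by exact_mod_cast hd
  set ρ : ℝ := 1 - 1 / (2 * d) with hρ
  have hq : 1 / (2 * (d : ℝ)) ≤ 1 / 2 := by
    apply one_div_le_one_div_of_le <;> linarith
  have hq0 : 0 < 1 / (2 * (d : ℝ)) := by positivity
  have hρ0 : 0 < ρ := by rw [hρ]; linarith
  have hρ1 : ρ < 1 := by rw [hρ]; linarith
  set M : ℝ := ((r₀ : ℝ) + d) ^ d * d / ρ ^ d with hM
  have hM0 : 0 < M := by positivity
  have ht := tendsto_pow_const_mul_const_pow_of_abs_lt_one d
    (show |ρ| < 1 by rw [abs_of_pos hρ0]; exact hρ1)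
  have hev := (ht.const_mul M).eventually (gt_mem_nhds (show M * 0 < 1 / 2 by norm_num))
  obtain ⟨k, hk, hk1⟩ := (hev.and (Filter.eventually_ge_atTop (d + 1))).exists
  have hk' : (1 : ℝ) ≤ k := by exact_mod_cast (by omega : 1 ≤ k)
  set X : ℝ := ((r₀ : ℝ) + d * k) ^ d * (d * k) * ((r₀ : ℝ) + d * k) with hX
  obtain ⟨T, hT⟩ := exists_nat_gt (2 * (X + d * k * e₀ + d * e₀) + 1)
  have hX0 : 0 ≤ X := by positivity
  have hT0 : (0 : ℝ) < T := by
    have : (0 : ℝ) ≤ d * k * e₀ + d * e₀ := by positivity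
    linarith
  refine ⟨k, T, by exact_mod_cast hT0, ?_⟩
  intro r e hr he
  have hr' : (r : ℝ) ≤ r₀ := by exact_mod_cast hr
  have he' : (e : ℝ) ≤ e₀ := by exact_mod_cast he
  have h1 : ((r : ℝ) + d * k) ^ d * d * ρ ^ (k - d) < 1 / 2 := by
    have e1 : ρ ^ (k - d) = ρ ^ k / ρ ^ d := by
      rw [eq_div_iff (by positivity), ← pow_add]
      congr 1
      omega
    have e2 : (r : ℝ) + d * k ≤ ((r₀ : ℝ) + d) * k := by nlinarith
    calc ((r : ℝ) + d * k) ^ d * d * ρ ^ (k - d) ≤
          (((r₀ : ℝ) + d) * k) ^ d * d * ρ ^ (k - d) := by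
            gcongr
      _ = M * ((k : ℝ) ^ d * ρ ^ k) := by
          rw [e1, hM, mul_pow]
          field_simp
      _ < 1 / 2 := hk
  have h2 : ((r : ℝ) + d * k) ^ d * (d * k) * ((r : ℝ) + d * k) ≤ X := by
    rw [hX]
    gcongr
  have h3 : (d : ℝ) * k * e ≤ d * k * e₀ := by gcongr
  have h4 : (d : ℝ) * e ≤ d * e₀ := by gcongr
  have h30 : (0 : ℝ) ≤ d * k * e₀ := by positivity
  have h40 : (0 : ℝ) ≤ d * e₀ := by positivity
  have hTi : (0 : ℝ) < 1 / T := by positivity
  have h5 : (X + d * k * e₀ + d * e₀) * (1 / (T : ℝ)) < 1 / 2 := by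
    rw [mul_one_div, div_lt_iff₀ hT0]
    linarith
  have h6 : ((r : ℝ) + d * k) ^ d * (d * k) * ((r : ℝ) + d * k) * (1 / (T : ℝ)) ≤
      X * (1 / T) := mul_le_mul_of_nonneg_right h2 hTi.le
  have h7 : (d : ℝ) * k * e * (1 / (T : ℝ)) ≤ d * k * e₀ * (1 / T) :=
    mul_le_mul_of_nonneg_right h3 hTi.le
  have h8 : (d : ℝ) * e * (1 / (T : ℝ)) ≤ d * e₀ * (1 / T) :=
    mul_le_mul_of_nonneg_right h4 hTi.le
  have h9 : 0 ≤ d * k * e₀ * (1 / (T : ℝ)) := by positivity
  have h10 : 0 ≤ d * e₀ * (1 / (T : ℝ)) := by positivity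
  have h11 : 0 ≤ X * (1 / (T : ℝ)) := by positivity
  have h12 : (X + d * k * e₀ + d * e₀) * (1 / (T : ℝ)) =
      X * (1 / T) + d * k * e₀ * (1 / T) + d * e₀ * (1 / T) := by ring
  constructor <;> linarith

/-- a gap in a finite list of sizes -/
theorem gap {d : ℕ} (n : Fin d → ℕ) (L : ℕ → ℕ) (hL : Monotone L) :
    ∃ j ≤ d, ∀ i, n i ≤ L j ∨ L (j + 1) < n i := by
  by_contra hcon
  push Not at hcon
  have hcon' : ∀ j : Fin (d + 1), ∃ i, L j < n i ∧ n i ≤ L (j + 1) := fun j =>
    hcon j (by omega)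
  choose f hf using hcon'
  have hinj : Function.Injective f := by
    intro j j' h
    by_contra hne
    rcases lt_or_gt_of_ne hne with hlt | hlt
    · have h1 := (hf j).2
      have h2 := (hf j').1
      rw [← h] at h2
      have h3 : L (j + 1) ≤ L j' := hL (by exact_mod_cast hlt)
      omega
    · have h1 := (hf j').2
      have h2 := (hf j).1
      rw [h] at h2
      have h3 : L (j' + 1) ≤ L j := hL (by exact_mod_cast hlt)
      omega
  have := Fintype.card_le_of_injective f hinj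
  simp at this

/-! ## The theorem for finite groups of permutations -/

theorem main (d : ℕ) (hd : 0 < d) : ∃ C : ℕ, ∀ (A V : Type) [Group A] [Fintype A]
    [MulAction A V] (b : Fin d → V), (∀ g : A, (∀ i, g • b i = b i) → g = 1) →
    ∀ S₀ : Finset V, (∀ g : A, g ≠ 1 → ∃ v ∈ S₀, g • v ∉ S₀) →
      ∃ S : Finset V, S.card ≤ C ∧ ∀ g : A, (∀ v ∈ S, g • v ∈ S) → g = 1 := by
  -- constants
  have hnum : ∀ L : ℕ, ∃ k T : ℕ, 0 < T ∧
    ∀ r e : ℕ, r ≤ d + (d * L) ^ (d * L) + d * L → e ≤ (d * L) ^ (d * L) →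
      ((r : ℝ) + d * k) ^ d * d * (1 - 1 / (2 * d)) ^ (k - d) +
        ((r : ℝ) + d * k) ^ d * (d * k) * ((r : ℝ) + d * k) * (1 / (T : ℝ)) +
        d * k * e * (1 / (T : ℝ)) < 1 ∧ (d : ℝ) * e * (1 / T) < 1 :=
    fun L => numeric d hd _ _
  choose k T hT hnum using hnum
  let L : ℕ → ℕ := fun j => Nat.rec 1 (fun _ x => max (T x) x) j
  have hL0 : L 0 = 1 := rfl
  have hLs : ∀ j, L (j + 1) = max (T (L j)) (L j) := fun j => rfl
  have hLm : Monotone L := monotone_nat_of_le_succ fun j => by rw [hLs]; exact le_max_right _ _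
  have hL1 : ∀ j, 1 ≤ L j := fun j => by rw [← hL0]; exact hLm (Nat.zero_le j)
  refine ⟨∑ j ∈ range (d + 1), (d + d * k (L j) + (d * L j) ^ (d * L j)), ?_⟩
  intro A V _ _ _ b hb S₀ hS₀
  obtain ⟨j, hj, hgap⟩ := gap (fun i => (orb A (b i)).card) L hLm
  set l := L j with hl
  have hl1 : 1 ≤ l := hL1 j
  set Lg : Finset (Fin d) := univ.filter fun i => L (j + 1) < (orb A (b i)).card with hLg
  have hsmall : ∀ i ∉ Lg, (orb A (b i)).card ≤ l := by
    intro i hi
    rcases hgap i with h | h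
    · exact h
    · exact (hi (by rw [hLg]; exact mem_filter.2 ⟨mem_univ _, h⟩)).elim
  set U : Finset V := (univ.filter fun i => i ∉ Lg).biUnion fun i => orb A (b i) with hUdef
  have hUc : U.card ≤ d * l := by
    refine le_trans card_biUnion_le ?_
    calc ∑ i ∈ univ.filter (fun i => i ∉ Lg), (orb A (b i)).card ≤
          ∑ _i ∈ univ.filter (fun i => i ∉ Lg), l :=
          Finset.sum_le_sum fun i hi => hsmall i (mem_filter.1 hi).2
      _ = (univ.filter (fun i => i ∉ Lg)).card * l := by rw [sum_const, smul_eq_mul]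
      _ ≤ d * l := by
          gcongr
          exact le_trans (card_le_univ _) (by simp)
  have hU : ∀ i ∉ Lg, ∀ g : A, g • b i ∈ U := fun i hi g =>
    mem_biUnion.2 ⟨i, mem_filter.2 ⟨mem_univ _, hi⟩, mem_image_of_mem _ (mem_univ g)⟩
  have hUU : ∀ g : A, ∀ u ∈ U, g • u ∈ U := by
    intro g u hu
    obtain ⟨i, hi, hu⟩ := mem_biUnion.1 hu
    obtain ⟨g', -, rfl⟩ := mem_image.1 hu
    refine mem_biUnion.2 ⟨i, hi, mem_image.2 ⟨g * g', mem_univ _, ?_⟩⟩
    exact mul_smul _ _ _
  set E : Finset A := few b Lg with hE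
  have hEc : E.card ≤ (d * l) ^ (d * l) := by
    refine le_trans (card_few hd b hb Lg U hU hUU) ?_
    calc U.card ^ U.card ≤ (d * l) ^ U.card := Nat.pow_le_pow_left hUc _
      _ ≤ (d * l) ^ (d * l) := Nat.pow_le_pow_right (Nat.mul_pos hd hl1) hUc
  -- the points of `S₀`
  have hw : ∀ g : A, ∃ v : V, g ≠ 1 → v ∈ S₀ ∧ g • v ∉ S₀ := by
    intro g
    by_cases h : g = 1
    · exact ⟨b ⟨0, hd⟩, fun h' => absurd h h'⟩
    · obtain ⟨v, hv⟩ := hS₀ g h
      exact ⟨v, fun _ => hv⟩
  choose w hw using hw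
  set S₂ : Finset V := (E.erase 1).image w with hS₂
  set Av : Finset V := (E.erase 1).image fun g => g • w g with hAvdef
  have hS₂c : S₂.card ≤ (d * l) ^ (d * l) :=
    le_trans card_image_le (le_trans (card_le_card (erase_subset _ _)) hEc)
  have hAvc : Av.card ≤ (d * l) ^ (d * l) :=
    le_trans card_image_le (le_trans (card_le_card (erase_subset _ _)) hEc)
  have hTl : (0 : ℝ) < T l := by exact_mod_cast hT l
  have hApos : (0 : ℝ) < Fintype.card A := by exact_mod_cast Fintype.card_pos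
  -- few elements hit a point
  have hhit : ∀ i ∈ Lg, ∀ v, ((univ.filter fun g : A => g • b i = v).card : ℝ) ≤
      1 / (T l : ℝ) * Fintype.card A := by
    intro i hi v
    have h1 := hit_le (A := A) (b i) v
    have h2 : T l ≤ (orb A (b i)).card := by
      have h3 := (mem_filter.1 hi).2
      rw [hLs] at h3
      exact le_trans (le_max_left _ _) h3.le
    have h4 : (univ.filter fun g : A => g • b i = v).card * T l ≤ Fintype.card A :=
      le_trans (Nat.mul_le_mul_left _ h2) h1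
    have h5 : ((univ.filter fun g : A => g • b i = v).card : ℝ) * T l ≤ Fintype.card A := by
      exact_mod_cast h4
    rw [div_mul_eq_mul_div, one_mul, le_div_iff₀ hTl]
    exact h5
  -- a translate of the base avoids `Av`
  obtain ⟨c, hc⟩ : ∃ c : A, ∀ i ∈ Lg, c • b i ∉ Av := by
    by_contra hcon
    push Not at hcon
    have h1 : (univ : Finset A) ⊆ (Lg ×ˢ Av).biUnion fun y =>
        univ.filter fun g : A => g • b y.1 = y.2 := by
      intro g _
      obtain ⟨i, hi, hv⟩ := hcon g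
      exact mem_biUnion.2 ⟨(i, g • b i), mem_product.2 ⟨hi, hv⟩,
        mem_filter.2 ⟨mem_univ _, rfl⟩⟩
    have h2 := le_trans (card_le_card h1) card_biUnion_le
    rw [card_univ] at h2
    have h3 : (Fintype.card A : ℝ) ≤ ∑ y ∈ Lg ×ˢ Av,
        ((univ.filter fun g : A => g • b y.1 = y.2).card : ℝ) := by exact_mod_cast h2
    have h4 : ∑ y ∈ Lg ×ˢ Av, ((univ.filter fun g : A => g • b y.1 = y.2).card : ℝ) ≤
        ∑ _y ∈ Lg ×ˢ Av, (1 / (T l : ℝ) * Fintype.card A) :=
      Finset.sum_le_sum fun y hy => hhit y.1 (mem_product.1 hy).1 y.2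
    rw [sum_const, nsmul_eq_mul, card_product] at h4
    have h5 : (Lg.card : ℝ) ≤ d := by
      have : Lg.card ≤ d := le_trans (card_le_univ _) (by simp)
      exact_mod_cast this
    have h6 := (hnum l 0 Av.card (Nat.zero_le _) hAvc).2
    have h7 : ((Lg.card * Av.card : ℕ) : ℝ) * (1 / (T l : ℝ) * Fintype.card A) ≤
        ((d : ℝ) * Av.card * (1 / T l)) * Fintype.card A := by
      push_cast
      have : (Lg.card : ℝ) * Av.card ≤ d * Av.card := by gcongr
      calc (Lg.card : ℝ) * Av.card * (1 / (T l : ℝ) * Fintype.card A) ≤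
            d * Av.card * (1 / (T l : ℝ) * Fintype.card A) := by gcongr
        _ = _ := by ring
    have h8 : ((d : ℝ) * Av.card * (1 / T l)) * Fintype.card A < 1 * Fintype.card A :=
      mul_lt_mul_of_pos_right h6 hApos
    linarith
  -- the translated base
  have hb' : ∀ g : A, (∀ i, g • (c • b i) = c • b i) → g = 1 := by
    intro g hg
    have : c⁻¹ * g * c = 1 := hb _ fun i => by rw [mul_smul, mul_smul, hg i, inv_smul_smul]
    have h2 : g = c * (c⁻¹ * g * c) * c⁻¹ := by group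
    rw [h2, this]
    group
  have hfew : few (A := A) (fun i => c • b i) Lg = E := by
    rw [hE]
    unfold few
    congr 1
    ext g
    have : ∀ i, moved g (c • b i) = moved g (b i) := fun i => by
      unfold moved
      convert card_shift (fun y => g • y ≠ y) (b i) c
    simp only [this]
  set R : Finset V := (Lg.image fun i => c • b i) ∪ S₂ ∪ U with hR
  have hLgc : (Lg.image fun i => c • b i).card ≤ d :=
    le_trans card_image_le (le_trans (card_le_univ _) (by simp))
  have hRc : R.card ≤ d + (d * l) ^ (d * l) + d * l := by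
    refine le_trans (card_union_le _ _) ?_
    have := card_union_le (Lg.image fun i => c • b i) S₂
    omega
  obtain ⟨Y, hYc, hYav, hY⟩ := exists_good (k := k l) hd (fun i => c • b i) hb' Lg R S₂ Av
    (fun i hi => mem_union_left _ (mem_union_left _ (mem_image_of_mem _ hi)))
    (fun v hv => mem_union_left _ (mem_union_right _ hv))
    (fun i hi g => mem_union_right _ (by rw [← mul_smul]; exact hU i hi _)) (T l) hTl
    (fun i hi v => by
      rw [card_shift (fun y => y = v) (b i) c]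
      exact hhit i hi v)
    hc ((hnum l R.card Av.card hRc hAvc).1)
  refine ⟨(Lg.image fun i => c • b i) ∪ Y ∪ S₂, ?_, ?_⟩
  · have h1 : ((Lg.image fun i => c • b i) ∪ Y ∪ S₂).card ≤
        d + d * k l + (d * l) ^ (d * l) := by
      refine le_trans (card_union_le _ _) ?_
      have := card_union_le (Lg.image fun i => c • b i) Y
      omega
    refine le_trans h1 ?_
    exact Finset.single_le_sum (f := fun j => d + d * k (L j) + (d * L j) ^ (d * L j))
      (fun _ _ => Nat.zero_le _) (mem_range.2 (by omega : j < d + 1))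
  · intro h hS
    by_contra hne
    have h1 : h ∈ E := by rw [← hfew]; exact hY h hS
    have h2 : h ∈ E.erase 1 := mem_erase.2 ⟨hne, h1⟩
    have h3 : w h ∈ S₂ := mem_image_of_mem w h2
    have h4 : h • w h ∈ Av := mem_image_of_mem (fun g => g • w g) h2
    rcases mem_union.1 (hS _ (mem_union_right _ h3)) with h5 | h5
    · exact hYav _ h5 h4
    · obtain ⟨g, hg, hg'⟩ := mem_image.1 h5
      apply (hw h hne).2
      rw [← hg']
      exact (hw g (mem_erase.1 hg).1).1

end Pool.Agent.Q260.CD
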